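import Pool.Agent.Y839.Mon.Names

/-!
# Random monster groups and outer automorphism groups of right-angled Artin groups

For an arbitrary sequence of finite graphs, infinitely many of which contain a cycle, almost every
random monster group has only homomorphisms with at most two values to the groups `Out(A_Λ)`,
simultaneously for all finite graphs `Λ` and also on subgroups of finite index. Conversely
super-rigidity with respect to one group `Out(A_Λ)` with an element of infinite order requires
infinitely many graphs with a cycle.
-/

set_option autoImplicit false

namespace Pool.Agent.Results.MP_af453c_al.AllGraphs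

open MeasureTheory Pool.Agent.H862R3.Monster Pool.Agent.Y839.Mon

/-- (1) The standing assumptions of the problem imply that infinitely many of the graphs contain a
cycle. (2) If infinitely many of the graphs contain a cycle, then super-rigidity and hereditary
super-rigidity hold with respect to `Out(A_Λ)` for every finite graph `Λ`, and for almost every
labelling simultaneously for all finite graphs `Λ`: subgroups of finite index have index at most
`2`, and homomorphisms from them to `Out(A_Λ)` take at most two values; the same null set works for
all linear groups over fields, all residually finite groups and all subgroups of finitely presented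
groups. (3) If `Out(A_Λ)` has an element of infinite order, then super-rigidity with respect to
`Out(A_Λ)`, hereditary super-rigidity, and the existence of infinitely many graphs with a cycle are
equivalent. -/
theorem result :
    StandingInfCyc ∧
    ∀ (k j : ℕ) (hk : 2 ≤ k) (_ : 1 ≤ j)
      (V : ℕ → Type) [∀ n, Finite (V n)] (Ω : ∀ n, SimpleGraph (V n)),
      (InfCyc Ω → OutRigid (Tpow k j hk) Ω ∧ OutAlmostAll (Tpow k j hk) Ω) ∧
      OutCrit (Tpow k j hk) Ω := by
  refine ⟨standingInfCyc, ?_⟩
  intro k j hk hj V _ Ω
  refine ⟨?_, ?_⟩
  · intro hΩ
    refine ⟨?_, ?_⟩
    · intro W _ Λ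
      have := countable_outer (RAAG Λ)
      have h := hereditary hk hΩ (good_Tpow hk hj) (quot_mem_Ev_Tpow hk) (Outer (RAAG Λ))
      exact ⟨family_of_superRigid _ (superRigid_of_hereditary _ h), h⟩
    · have : ∀ i : (Σ m : ℕ, SimpleGraph (Fin m)), Countable (Outer (RAAG i.2)) :=
        fun i => countable_outer (RAAG i.2)
      have h := uni hk hΩ (good_Tpow hk hj) (quot_mem_Ev_Tpow hk)
        (fun i : (Σ m : ℕ, SimpleGraph (Fin m)) => Outer (RAAG i.2))
      unfold AlmostAll at h
      unfold OutAlmostAll
      filter_upwards [h] with α hα
      exact ⟨hα.1, fun m Λ => hα.2 ⟨m, Λ⟩⟩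
  · intro W _ Λ hG
    have := countable_outer (RAAG Λ)
    exact crit hk (good_Tpow hk hj) (quot_mem_Ev_Tpow hk) j (pow_mem_Tpow j hk) _ hG

end Pool.Agent.Results.MP_af453c_al.AllGraphs
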